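import Pool.Agent.Helper70.EH.Goals3

/-!
# PROJECT EH (MP_20ee5e_ag), part 3, packet AU: Bonferroni bounds for the alternating sum
-/

open Finset

namespace Pool.Agent.Helper66.EH.AU

variable {α : Type}

/-- The alternating sum of `F` over the subsets of `S`. -/
def B (F : Finset α → ℝ) (S : Finset α) : ℝ := ∑ J ∈ S.powerset, (-1) ^ (S.card - J.card) * F J

theorem B_empty (F : Finset α → ℝ) : B F ∅ = F ∅ := by
  unfold B
  rw [powerset_empty, sum_singleton, card_empty, Nat.sub_zero, pow_zero, one_mul]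

variable [DecidableEq α]

theorem B_insert (F : Finset α → ℝ) {a : α} {S : Finset α} (ha : a ∉ S) :
    B F (insert a S) = B (fun J => F (insert a J)) S - B F S := by
  unfold B
  rw [sum_powerset_insert ha, sub_eq_add_neg, add_comm, ← sum_neg_distrib]
  congr 1
  · refine sum_congr rfl fun J hJ => ?_
    have hJ' : a ∉ J := fun h => ha (mem_powerset.1 hJ h)
    rw [card_insert_of_notMem ha, card_insert_of_notMem hJ', Nat.add_sub_add_right]
  · refine sum_congr rfl fun J hJ => ?_
    have h := card_le_card (mem_powerset.1 hJ)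
    rw [card_insert_of_notMem ha, Nat.succ_sub h, pow_succ]
    ring

theorem sum_B (S : Finset α) : ∀ F : Finset α → ℝ, ∑ T ∈ S.powerset, B F T = F S := by
  induction S using Finset.induction_on with
  | empty =>
    intro F
    rw [powerset_empty, sum_singleton, B_empty]
  | insert a S ha ih =>
    intro F
    rw [sum_powerset_insert ha, ih F]
    have h : ∑ T ∈ S.powerset, B F (insert a T) =
        ∑ T ∈ S.powerset, (B (fun J => F (insert a J)) T - B F T) :=
      sum_congr rfl fun T hT => B_insert F fun h => ha (mem_powerset.1 hT h)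
    rw [h, sum_sub_distrib, ih F, ih (fun J => F (insert a J))]
    ring

/-- The sum over the subsets which contain `i`. -/
theorem B_mem (F : Finset α → ℝ) {i : α} {S : Finset α} (hi : i ∈ S) :
    ∑ J ∈ S.powerset, (-1) ^ (S.card - J.card) * (if i ∈ J then F J else 0) =
      B F S + B F (S.erase i) := by
  have h1 : B F S = ∑ J ∈ S.powerset, (-1) ^ (S.card - J.card) * (if i ∈ J then F J else 0) +
      ∑ J ∈ S.powerset, (-1) ^ (S.card - J.card) * (if i ∈ J then 0 else F J) := by
    unfold B
    rw [← sum_add_distrib]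
    refine sum_congr rfl fun J _ => ?_
    by_cases h : i ∈ J
    · rw [if_pos h, if_pos h]
      ring
    · rw [if_neg h, if_neg h]
      ring
  have h2 : ∑ J ∈ S.powerset, (-1 : ℝ) ^ (S.card - J.card) * (if i ∈ J then 0 else F J) =
      -B F (S.erase i) := by
    unfold B
    rw [← sum_neg_distrib]
    have hsub : (S.erase i).powerset ⊆ S.powerset := powerset_mono.2 (erase_subset _ _)
    rw [← sum_subset hsub]
    · refine sum_congr rfl fun J hJ => ?_
      have h3 : i ∉ J := fun h => notMem_erase i S (mem_powerset.1 hJ h)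
      have h4 := card_le_card (mem_powerset.1 hJ)
      have h5 := card_erase_add_one hi
      rw [if_neg h3, ← h5, Nat.succ_sub h4, pow_succ]
      ring
    · intro J hJ hJ2
      have h3 : i ∈ J := by
        by_contra h
        exact hJ2 (mem_powerset.2 (subset_erase.2 ⟨mem_powerset.1 hJ, h⟩))
      rw [if_pos h3, mul_zero]
  rw [h1, h2]
  ring

variable (w : α → ℝ)

/-- The alternating sum of the powers of the sums. -/
def A (S : Finset α) (M : ℕ) : ℝ := B (fun J => (∑ i ∈ J, w i) ^ M) S

theorem A_succ (S : Finset α) (M : ℕ) :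
    A w S (M + 1) = ∑ i ∈ S, w i * (A w S M + A w (S.erase i) M) := by
  have h1 : ∀ i ∈ S, w i * (A w S M + A w (S.erase i) M) =
      ∑ J ∈ S.powerset, (-1) ^ (S.card - J.card) *
        (if i ∈ J then w i * (∑ i ∈ J, w i) ^ M else 0) := by
    intro i hi
    unfold A
    rw [← B_mem _ hi, mul_sum]
    refine sum_congr rfl fun J _ => ?_
    by_cases h : i ∈ J
    · rw [if_pos h, if_pos h]
      ring
    · rw [if_neg h, if_neg h]
      ring
  rw [sum_congr rfl h1, sum_comm]
  unfold A B
  refine sum_congr rfl fun J hJ => ?_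
  rw [← mul_sum, ← sum_filter, filter_mem_eq_inter, inter_eq_right.2 (mem_powerset.1 hJ),
    ← sum_mul]
  show (-1 : ℝ) ^ (S.card - J.card) * (∑ i ∈ J, w i) ^ (M + 1) =
    (-1 : ℝ) ^ (S.card - J.card) * ((∑ i ∈ J, w i) * (∑ i ∈ J, w i) ^ M)
  ring

theorem A_zero (S : Finset α) : 0 ≤ A w S 0 := by
  unfold A
  rcases S.eq_empty_or_nonempty with h | ⟨a, ha⟩
  · rw [h, B_empty, pow_zero]
    exact zero_le_one
  · rw [← insert_erase ha, B_insert _ (notMem_erase a S)]
    simp only [pow_zero, sub_self]
    exact le_refl 0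

theorem A_nonneg (hw : ∀ i, 0 ≤ w i) (M : ℕ) : ∀ S : Finset α, 0 ≤ A w S M := by
  induction M with
  | zero => exact A_zero w
  | succ M ih =>
    intro S
    rw [A_succ]
    exact sum_nonneg fun i _ => mul_nonneg (hw i) (add_nonneg (ih _) (ih _))

theorem A_le (hw : ∀ i, 0 ≤ w i) (M : ℕ) (S : Finset α) : A w S M ≤ (∑ i ∈ S, w i) ^ M := by
  have h := sum_B S fun J => (∑ i ∈ J, w i) ^ M
  rw [← h]
  exact single_le_sum (f := fun T => B (fun J => (∑ i ∈ J, w i) ^ M) T)
    (fun T _ => A_nonneg w hw M T) (mem_powerset.2 (Subset.refl S))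

theorem le_A (hw : ∀ i, 0 ≤ w i) (M : ℕ) (S : Finset α) :
    (∑ i ∈ S, w i) ^ M - ∑ i ∈ S, (∑ j ∈ S.erase i, w j) ^ M ≤ A w S M := by
  have h := sum_B S fun J => (∑ i ∈ J, w i) ^ M
  have h1 : ∑ T ∈ S.powerset, A w T M = A w S M + ∑ T ∈ S.powerset.erase S, A w T M :=
    (add_sum_erase _ _ (mem_powerset.2 (Subset.refl S))).symm
  have h2 : ∑ T ∈ S.powerset.erase S, A w T M ≤ ∑ i ∈ S, (∑ j ∈ S.erase i, w j) ^ M := by
    calc ∑ T ∈ S.powerset.erase S, A w T M
        ≤ ∑ T ∈ S.powerset.erase S, ∑ i ∈ S, if i ∉ T then A w T M else 0 := by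
          refine sum_le_sum fun T hT => ?_
          obtain ⟨h3, h4⟩ := mem_erase.1 hT
          obtain ⟨i, hi, hi2⟩ := exists_of_ssubset
            ((mem_powerset.1 h4).ssubset_of_ne h3)
          have h5 := single_le_sum (f := fun i => if i ∉ T then A w T M else 0) (s := S)
            (fun j _ => by
              show 0 ≤ if j ∉ T then A w T M else 0
              split_ifs
              · exact le_refl _
              · exact A_nonneg w hw M T) hi
          have h6 : (if i ∉ T then A w T M else 0) = A w T M := if_pos hi2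
          rw [h6] at h5
          exact h5
      _ = ∑ i ∈ S, ∑ T ∈ S.powerset.erase S, if i ∉ T then A w T M else 0 := sum_comm
      _ = ∑ i ∈ S, (∑ j ∈ S.erase i, w j) ^ M := by
          refine sum_congr rfl fun i hi => ?_
          have h5 : (S.powerset.erase S).filter (fun T => i ∉ T) = (S.erase i).powerset := by
            ext T
            rw [mem_filter, mem_erase, mem_powerset, mem_powerset, subset_erase]
            constructor
            · rintro ⟨⟨_, h6⟩, h7⟩
              exact ⟨h6, h7⟩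
            · rintro ⟨h6, h7⟩
              exact ⟨⟨fun h8 => h7 (by rw [h8]; exact hi), h6⟩, h7⟩
          rw [← sum_filter, h5]
          exact sum_B (S.erase i) fun J => (∑ i ∈ J, w i) ^ M
  have h3 : ∑ T ∈ S.powerset, A w T M = (∑ i ∈ S, w i) ^ M := h
  linarith

theorem t : Pool.Agent.Helper70.EH.G_AU := by
  intro r M k _ hM
  have hw : ∀ i, 0 ≤ (k i : ℝ) := fun i => Nat.cast_nonneg _
  have e : Pool.Agent.Helper70.EH.ak k M = A (fun i => (k i : ℝ)) Finset.univ M := by
    unfold Pool.Agent.Helper70.EH.ak A B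
    rw [card_univ, Fintype.card_fin, powerset_univ, sum_filter]
    refine sum_congr rfl fun J _ => ?_
    by_cases h : J.Nonempty
    · rw [if_pos h]
    · rw [if_neg h, not_nonempty_iff_eq_empty.1 h]
      show (0 : ℝ) = (-1 : ℝ) ^ (r - (∅ : Finset (Fin r)).card) *
        (∑ i ∈ (∅ : Finset (Fin r)), (k i : ℝ)) ^ M
      rw [sum_empty, zero_pow (by omega), mul_zero]
  have e2 : ∀ i, (∑ j, (k j : ℝ)) - k i = ∑ j ∈ Finset.univ.erase i, (k j : ℝ) := by
    intro i
    rw [← add_sum_erase Finset.univ (fun j => (k j : ℝ)) (mem_univ i)]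
    ring
  rw [e]
  refine ⟨?_, A_le _ hw M _⟩
  simp only [e2]
  exact le_A _ hw M _

end Pool.Agent.Helper66.EH.AU
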